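import Mathlib

set_option autoImplicit false

open scoped commutatorElement

namespace Pool.Agent.Helper77Metab

/-- The group ring `ℤ[ℤ²]` (Laurent polynomials in `x, y`). -/
abbrev R : Type := AddMonoidAlgebra ℤ (ℤ × ℤ)

/-- The monomial `x^i y^j`. -/
noncomputable def mon (g : ℤ × ℤ) : R := AddMonoidAlgebra.single g 1

@[simp] lemma mon_zero : mon 0 = 1 := rfl

lemma mon_add (g h : ℤ × ℤ) : mon (g + h) = mon g * mon h := by
  simp [mon, AddMonoidAlgebra.single_mul_single]

lemma mon_injective : Function.Injective mon :=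
  AddMonoidAlgebra.single_left_injective one_ne_zero

lemma mon_neg_mul (g : ℤ × ℤ) : mon (-g) * mon g = 1 := by
  rw [← mon_add]; simp

lemma mon_mul_neg (g : ℤ × ℤ) : mon g * mon (-g) = 1 := by
  rw [← mon_add]; simp

lemma mon_ne_one {g : ℤ × ℤ} (hg : g ≠ 0) : mon g ≠ 1 := by
  intro h; exact hg (mon_injective (by rw [h, mon_zero]))

lemma mon_sub_one_ne_zero {g : ℤ × ℤ} (hg : g ≠ 0) : mon g - 1 ≠ 0 :=
  sub_ne_zero.2 (mon_ne_one hg)

/-- The affine group over `ℤ[ℤ²]` with monomial linear part. -/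
@[ext] structure Aff where
  g : ℤ × ℤ
  r : R

namespace Aff

noncomputable instance : Mul Aff := ⟨fun a b => ⟨a.g + b.g, a.r + mon a.g * b.r⟩⟩
noncomputable instance : One Aff := ⟨⟨0, 0⟩⟩
noncomputable instance : Inv Aff := ⟨fun a => ⟨-a.g, -(mon (-a.g) * a.r)⟩⟩

@[simp] lemma mul_g (a b : Aff) : (a * b).g = a.g + b.g := rfl
@[simp] lemma mul_r (a b : Aff) : (a * b).r = a.r + mon a.g * b.r := rfl
@[simp] lemma one_g : (1 : Aff).g = 0 := rfl
@[simp] lemma one_r : (1 : Aff).r = 0 := rfl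
@[simp] lemma inv_g (a : Aff) : (a⁻¹).g = -a.g := rfl
@[simp] lemma inv_r (a : Aff) : (a⁻¹).r = -(mon (-a.g) * a.r) := rfl

noncomputable instance : Group Aff := Group.ofLeftAxioms
  (by intro a b c; ext <;> simp [mon_add, add_assoc, mul_add, mul_assoc])
  (by intro a; ext <;> simp [mon_zero])
  (by intro a; ext <;> simp)

/-- The linear part, as a homomorphism. -/
def lin : Aff →* Multiplicative (ℤ × ℤ) where
  toFun a := Multiplicative.ofAdd a.g
  map_one' := rfl
  map_mul' _ _ := rfl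

lemma zpow_g (a : Aff) (n : ℤ) : (a ^ n).g = n • a.g := by
  have := map_zpow lin a n
  have h2 := congrArg Multiplicative.toAdd this
  simpa [lin] using h2

/-- conjugating a translation -/
lemma conj_r (a b : Aff) (hb : b.g = 0) : (a * b * a⁻¹) = ⟨0, mon a.g * b.r⟩ := by
  ext1
  · simp [hb]
  · have : mon a.g * (mon (-a.g) * a.r) = a.r := by
      rw [← mul_assoc, mon_mul_neg, one_mul]
    simp only [mul_r, mul_g, hb, inv_r, add_zero, mul_neg, this]
    ring

lemma comm_trans (a b : Aff) (ha : a.g = 0) (hb : b.g = 0) : a * b = b * a := by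
  ext1
  · simp [ha, hb]
  · simp [ha, hb, add_comm]

/-- If `a` commutes with a non-trivial translation then it is a translation. -/
lemma g_eq_zero_of_comm (a b : Aff) (hb : b.g = 0) (hb0 : b.r ≠ 0) (h : a * b = b * a) :
    a.g = 0 := by
  by_contra hne
  have h1 := congrArg Aff.r h
  simp only [mul_r, hb, mon_zero, one_mul] at h1
  have h2 : (mon a.g - 1) * b.r = 0 := by linear_combination h1
  rcases mul_eq_zero.1 h2 with h3 | h3
  · exact mon_sub_one_ne_zero hne h3
  · exact hb0 h3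

/-- `x ↦ (x, 0)` -/
noncomputable def X0 : Aff := ⟨(1, 0), 0⟩
/-- `y ↦ (y, 1)` -/
noncomputable def Y0 : Aff := ⟨(0, 1), 1⟩

/-- the commutator of the two generators -/
lemma comm_X0_Y0 : ⁅X0, Y0⁆ = ⟨0, mon (1, 0) - 1⟩ := by
  rw [commutatorElement_def]
  ext1
  · simp [X0, Y0]
  · have h1 : mon (1,1) * mon (-1, 0) = mon (0, 1) := by rw [← mon_add]; rfl
    have h2 : mon (0,1) * mon (0, -1) = 1 := by rw [← mon_add]; rfl
    simp only [mul_r, mul_g, inv_r, inv_g, X0, Y0]
    simp [h2, sub_eq_add_neg]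

end Aff

end Pool.Agent.Helper77Metab
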