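import Pool.Agent.Helper77_Metab.GroupT

set_option autoImplicit false

open scoped commutatorElement

namespace Pool.Agent.Helper77Metab

open Aff

/-- coordinate projections into the affine group -/
def pr (e : ℤˣ) (n : ℕ) : T →* Aff where
  toFun t := t.1.2 e n
  map_one' := rfl
  map_mul' _ _ := rfl

/-- exponents -/
def expo : T →* Multiplicative (ℤ × ℤ × ℤ) where
  toFun t := t.1.1
  map_one' := rfl
  map_mul' _ _ := rfl

lemma pr_g (e : ℤˣ) (n : ℕ) (t : T) : (pr e n t).g = ev e n (expo t).toAdd := t.2.2.1 e n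

lemma pr_mem (e : ℤˣ) (n : ℕ) (t : T) : pr e n t ∈ M := t.2.1 e n

lemma ext_T {s t : T} (h1 : expo s = expo t) (h2 : ∀ e n, pr e n s = pr e n t) : s = t := by
  apply Subtype.ext
  exact Prod.ext h1 (funext fun e => funext fun n => h2 e n)

/-- projections onto the free metabelian group -/
noncomputable def fT (e : ℤˣ) (n : ℕ) : T →* FM :=
  eM.symm.toMonoidHom.comp ((pr e n).codRestrict M (pr_mem e n))

lemma fT_eq_one_iff (e : ℤˣ) (n : ℕ) (t : T) : fT e n t = 1 ↔ pr e n t = 1 := by
  change eM.symm _ = 1 ↔ _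
  rw [map_eq_one_iff _ eM.symm.injective]
  exact Subtype.ext_iff

/-- the element `X` -/
noncomputable def tX : T := ⟨(Multiplicative.ofAdd (1, 0, 0), fun _ _ => X0),
  fun _ _ => X0_mem, fun e n => by ext <;> simp [ev, X0], fun e => ⟨0, 1, fun n => by simp [X0]⟩⟩

/-- the element `Z` -/
noncomputable def tZ : T := ⟨(Multiplicative.ofAdd (0, 0, 1), fun e n => X0 ^ ((e : ℤ) * (n + 1))),
  fun _ _ => zpow_mem X0_mem _, fun e n => by
    rw [zpow_g]; ext <;> simp [ev, X0], fun e => ⟨0, 1, fun n => by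
      have : ∀ m : ℤ, (X0 ^ m).r = 0 := by
        intro m
        let H : Subgroup Aff :=
          { carrier := {a | a.r = 0}
            one_mem' := rfl
            mul_mem' := by
              intro a b ha hb
              simp only [Set.mem_setOf_eq] at ha hb ⊢
              simp [ha, hb]
            inv_mem' := by
              intro a ha
              simp only [Set.mem_setOf_eq] at ha ⊢
              simp [ha] }
        have hX : X0 ∈ H := rfl
        exact zpow_mem hX m
      simp [this]⟩⟩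

lemma sig_trans_mem (k n : ℕ) : (⟨0, sig k n - 1⟩ : Aff) ∈ M := by
  obtain ⟨r, hr⟩ := x_sub_one_dvd_sig k n
  rw [hr, mul_comm]; exact trans_mem r

/-- the elements `Y_k` -/
noncomputable def tY (k : ℕ) : T := ⟨(Multiplicative.ofAdd (0, 1, 0), fun _ n => ⟨(0, 1), sig k n⟩),
  fun e n => by
    have h := mul_mem (sig_trans_mem k n) Y0_mem
    have h2 : (⟨0, sig k n - 1⟩ * Y0 : Aff) = ⟨(0, 1), sig k n⟩ := by
      ext1 <;> simp [Y0]
    rw [h2] at h; exact h,
  fun e n => by ext <;> simp [ev],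
  fun e => ⟨1, DS e k, fun n => ⟨evR_DS_ne_zero _ _ _, by
    rw [map_one, one_mul]; exact evR_DS_mul_sig e n k⟩⟩⟩

/-- the chain elements `a_{e,k}` -/
noncomputable def tA (e : ℤˣ) (k : ℕ) : T :=
  ⟨(1, fun e' n => if e' = e then ⟨0, sig k n * (mon (1, 0) - 1)⟩ else 1),
  fun e' n => by
    dsimp only
    split_ifs
    · exact trans_mem _
    · exact one_mem _,
  fun e' n => by
    have h : ev e' n (Multiplicative.toAdd (1 : Multiplicative (ℤ × ℤ × ℤ))) = 0 := map_zero _
    dsimp only
    rw [h]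
    split_ifs <;> rfl,
  fun e' => by
    by_cases h : e' = e
    · refine ⟨monS (1, 0, 0) - 1, DS e' k, fun n => ⟨evR_DS_ne_zero _ _ _, ?_⟩⟩
      have h1 : evR e' n (monS (1, 0, 0) - 1) = mon (1, 0) - 1 := by
        rw [map_sub, map_one, evR_monS]
        congr 2
        ext <;> simp [ev]
      rw [h1]
      simp only [if_pos h]
      rw [← evR_DS_mul_sig e' n k]
      ring
    · refine ⟨0, 1, fun n => ?_⟩
      simp [if_neg h]⟩

lemma pr_tA (e e' : ℤˣ) (n k : ℕ) :
    pr e' n (tA e k) = if e' = e then ⟨0, sig k n * (mon (1, 0) - 1)⟩ else 1 := rfl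

lemma tA_ne_one (e : ℤˣ) (k : ℕ) : tA e k ≠ 1 := by
  intro h
  have h1 := congrArg (pr e 0) h
  rw [pr_tA, if_pos rfl, map_one] at h1
  have h2 := congrArg Aff.r h1
  simp only [one_r] at h2
  rcases mul_eq_zero.1 h2 with h3 | h3
  · exact sig_ne_zero _ _ h3
  · exact mon_sub_one_ne_zero (by simp) h3

/-- the element `K_j` of `T`. -/
noncomputable def tK (e : ℤˣ) (j : ℕ) : T := tZ ^ (e : ℤ) * tX ^ (-((j : ℤ) + 1))

/-- iterated commutators with `K_0, K_1, …` -/
noncomputable def Phi (e : ℤˣ) : ℕ → T → T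
  | 0, a => a
  | (j + 1), a => ⁅tK e j, Phi e j a⁆

/-- behaviour of iterated commutators under a homomorphism into the affine group -/
lemma map_Phi (F : T →* Aff) (e : ℤˣ) (a : T) (ha : (F a).g = 0) (k : ℕ) :
    F (Phi e k a) = ⟨0, (∏ j ∈ Finset.range k, (mon (F (tK e j)).g - 1)) * (F a).r⟩ := by
  induction k with
  | zero =>
    ext1
    · exact ha
    · simp [Phi]
  | succ k ih =>
    rw [Phi, map_commutatorElement, ih, commutatorElement_def, conj_r _ _ rfl,
      Finset.prod_range_succ]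
    ext1
    · simp
    · simp only [mul_r, inv_r, mon_zero, neg_zero]
      ring

lemma expo_tK (e : ℤˣ) (j : ℕ) : (expo (tK e j)).toAdd = kap e j := by
  rw [tK, map_mul, map_zpow, map_zpow]
  change (e : ℤ) • ((0, 0, 1) : ℤ × ℤ × ℤ) + (-((j : ℤ) + 1)) • ((1, 0, 0) : ℤ × ℤ × ℤ) = kap e j
  simp [kap]

/-- the divisibility relation in the group -/
lemma tA_eq (e : ℤˣ) (k : ℕ) : tA e k = tA e (k + 1) * (Phi e (k + 1) (tA e (k + 1))) ^ 2 := by
  have hPhi_expo : expo (Phi e (k + 1) (tA e (k + 1))) = 1 := by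
    rw [Phi, map_commutatorElement, commutatorElement_eq_one_iff_mul_comm, mul_comm]
  apply ext_T
  · rw [map_mul, map_pow, hPhi_expo]
    rfl
  · intro e' n
    rw [map_mul, map_pow]
    have h0 : (pr e' n (tA e (k + 1))).g = 0 := by
      rw [pr_tA]; split_ifs <;> rfl
    rw [map_Phi _ _ _ h0]
    have hprod : ∀ (h : e' = e), (∏ j ∈ Finset.range (k + 1), (mon (pr e' n (tK e j)).g - 1)) = Q n k := by
      intro h
      subst h
      rw [Q]
      apply Finset.prod_congr rfl
      intro j _
      rw [pr_g, expo_tK, ev_kap]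
    by_cases h : e' = e
    · rw [hprod h]
      simp only [pr_tA, if_pos h]
      rw [sig_succ k n, P, pow_two]
      ext1
      · simp
      · simp only [mul_r, mon_zero, one_mul, mul_g, add_zero]
        ring
    · simp only [pr_tA, if_neg h, one_r, mul_zero, one_mul]
      change 1 = (1 : Aff) ^ 2
      simp

end Pool.Agent.Helper77Metab
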