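import Pool.Agent.Helper77_Metab.Magnus

set_option autoImplicit false

open scoped commutatorElement

namespace Pool.Agent.Helper77Metab

open Aff

/-- The free metabelian group of rank two. -/
abbrev FM : Type := FreeGroup (Fin 2) ⧸ derivedSeries (FreeGroup (Fin 2)) 2

lemma Aff_commutator_g {a : Aff} (ha : a ∈ commutator Aff) : a.g = 0 := by
  have h2 : (commutator Aff) ≤ lin.ker := Abelianization.commutator_subset_ker _
  have h3 := h2 ha
  rw [MonoidHom.mem_ker] at h3
  exact congrArg Multiplicative.toAdd h3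

/-- A criterion for being metabelian. -/
lemma derivedSeries_two_eq_bot_of {G : Type*} [Group G]
    (h : ∀ a ∈ commutator G, ∀ b ∈ commutator G, a * b = b * a) : derivedSeries G 2 = ⊥ := by
  rw [derivedSeries_succ, derivedSeries_one, Subgroup.commutator_eq_bot_iff_le_centralizer]
  intro a ha
  rw [Subgroup.mem_centralizer_iff]
  intro b hb
  exact h b hb a ha

lemma comm_of_derivedSeries_two_eq_bot {G : Type*} [Group G] (h : derivedSeries G 2 = ⊥) :
    ∀ a ∈ commutator G, ∀ b ∈ commutator G, a * b = b * a := by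
  rw [derivedSeries_succ, derivedSeries_one, Subgroup.commutator_eq_bot_iff_le_centralizer] at h
  intro a ha b hb
  exact ((Subgroup.mem_centralizer_iff.1 (h ha)) b hb).symm

lemma Aff_metabelian : derivedSeries Aff 2 = ⊥ :=
  derivedSeries_two_eq_bot_of fun _ ha _ hb =>
    comm_trans _ _ (Aff_commutator_g ha) (Aff_commutator_g hb)

/-- the Magnus representation of the free group -/
noncomputable def mag0 : FreeGroup (Fin 2) →* Aff := FreeGroup.lift ![X0, Y0]

lemma mag0_ker : derivedSeries (FreeGroup (Fin 2)) 2 ≤ mag0.ker := by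
  have := map_derivedSeries_le_derivedSeries (f := mag0) 2
  rw [Aff_metabelian] at this
  intro a ha
  exact this (Subgroup.mem_map_of_mem _ ha)

/-- the Magnus representation of the free metabelian group -/
noncomputable def mag : FM →* Aff := QuotientGroup.lift _ mag0 mag0_ker

/-- first generator -/
def fx : FM := QuotientGroup.mk (FreeGroup.of 0)
/-- second generator -/
def fy : FM := QuotientGroup.mk (FreeGroup.of 1)

lemma mag_fx : mag fx = X0 := by
  change mag0 (FreeGroup.of 0) = X0
  simp [mag0]

lemma mag_fy : mag fy = Y0 := by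
  change mag0 (FreeGroup.of 1) = Y0
  simp [mag0]

lemma FM_metabelian : derivedSeries FM 2 = ⊥ := by
  have := map_derivedSeries_eq (f := QuotientGroup.mk' (derivedSeries (FreeGroup (Fin 2)) 2))
    (QuotientGroup.mk'_surjective _) 2
  rw [← this, QuotientGroup.map_mk'_self]

lemma FM_closure : Subgroup.closure {fx, fy} = (⊤ : Subgroup FM) := by
  have h1 : Subgroup.closure (Set.range (FreeGroup.of : Fin 2 → FreeGroup (Fin 2))) = ⊤ :=
    FreeGroup.closure_range_of _
  have h2 := congrArg (Subgroup.map (QuotientGroup.mk' (derivedSeries (FreeGroup (Fin 2)) 2))) h1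
  rw [MonoidHom.map_closure, ← MonoidHom.range_eq_map, QuotientGroup.range_mk'] at h2
  rw [← h2]
  congr 1
  ext g
  simp only [Set.mem_insert_iff, Set.mem_singleton_iff, Set.mem_image, Set.mem_range]
  constructor
  · rintro (rfl | rfl)
    · exact ⟨_, ⟨0, rfl⟩, rfl⟩
    · exact ⟨_, ⟨1, rfl⟩, rfl⟩
  · rintro ⟨_, ⟨i, rfl⟩, rfl⟩
    fin_cases i
    · left; rfl
    · right; rfl

lemma mag_injective : Function.Injective mag :=
  injective_of_magnus fx fy mag mag_fx mag_fy
    (comm_of_derivedSeries_two_eq_bot FM_metabelian) FM_closure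

/-- the image of the Magnus representation -/
noncomputable def M : Subgroup Aff := mag.range

lemma X0_mem : X0 ∈ M := ⟨fx, mag_fx⟩
lemma Y0_mem : Y0 ∈ M := ⟨fy, mag_fy⟩

/-- the free metabelian group is isomorphic to `M` -/
noncomputable def eM : FM ≃* M := MonoidHom.ofInjective mag_injective

lemma M_eq_closure : M = Subgroup.closure {X0, Y0} := by
  rw [M, MonoidHom.range_eq_map, ← FM_closure, MonoidHom.map_closure]
  congr 1
  simp [Set.image_pair, mag_fx, mag_fy]

/-- translations by multiples of `x - 1` lie in `M` -/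
lemma trans_mem (r : R) : (⟨0, r * (mon (1, 0) - 1)⟩ : Aff) ∈ M := by
  induction r using AddMonoidAlgebra.induction_linear with
  | zero => rw [zero_mul]; exact one_mem _
  | add a b ha hb =>
    have := mul_mem ha hb
    convert this using 1
    ext1 <;> simp [add_mul]
  | single q n =>
    have h1 : (⟨0, mon q * (mon (1, 0) - 1)⟩ : Aff) ∈ M := by
      have h2 : (⟨0, mon (1, 0) - 1⟩ : Aff) ∈ M := by
        rw [← comm_X0_Y0]
        exact mul_mem (mul_mem (mul_mem X0_mem Y0_mem) (inv_mem X0_mem)) (inv_mem Y0_mem)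
      have h3 : X0 ^ q.1 * Y0 ^ q.2 ∈ M := mul_mem (zpow_mem X0_mem _) (zpow_mem Y0_mem _)
      have h4 := mul_mem (mul_mem h3 h2) (inv_mem h3)
      rw [conj_r _ _ rfl] at h4
      have h5 : (X0 ^ q.1 * Y0 ^ q.2).g = q := by
        rw [mul_g, zpow_g, zpow_g]
        ext <;> simp [X0, Y0]
      rw [h5] at h4
      exact h4
    have h2 := zpow_mem h1 n
    have h3 : ∀ (r : R) (n : ℤ), ((⟨0, r⟩ : Aff) ^ n) = ⟨0, n • r⟩ := by
      intro r n
      let f : Multiplicative R →* Aff :=
        { toFun := fun r => ⟨0, r.toAdd⟩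
          map_one' := rfl
          map_mul' := by intro a b; ext1 <;> simp }
      exact (map_zpow f (Multiplicative.ofAdd r) n).symm
    rw [h3] at h2
    convert h2 using 2
    rw [← smul_mul_assoc]
    congr 1
    simp [mon, AddMonoidAlgebra.smul_single]

end Pool.Agent.Helper77Metab
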