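import Pool.Agent.Helper77_Metab.Basic

set_option autoImplicit false

namespace Pool.Agent.Helper77Metab

@[simp] lemma mon_zero' : mon (0, 0) = 1 := rfl

/-- The augmentation `ℤ[ℤ²] → ℤ`. -/
noncomputable def aug : R →+* ℤ := (AddMonoidAlgebra.lift ℤ ℤ (ℤ × ℤ) 1).toRingHom

@[simp] lemma aug_mon (g : ℤ × ℤ) : aug (mon g) = 1 := by
  simp [aug, mon]

lemma aug_single (g : ℤ × ℤ) (n : ℤ) : aug (AddMonoidAlgebra.single g n) = n := by
  simp [aug]

/-- Units of `ℤ[ℤ²]` are trivial. -/
lemma eq_single_of_isUnit {u : R} (hu : IsUnit u) : ∃ g : ℤ × ℤ, ∃ n : ℤ, u = AddMonoidAlgebra.single g n := by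
  obtain ⟨v, huv⟩ := hu.exists_right_inv
  have hcard : ¬ 1 < u.coeff.support.card * v.coeff.support.card := by
    intro hlt
    obtain ⟨p1, hp1, p2, hp2, hne, hu1, hu2⟩ := TwoUniqueSums.uniqueAdd_of_one_lt_card hlt
    rw [Finset.mem_product] at hp1 hp2
    have h1 := AddMonoidAlgebra.coeff_mul_add_of_uniqueAdd hu1
    have h2 := AddMonoidAlgebra.coeff_mul_add_of_uniqueAdd hu2
    have h1' : (u * v).coeff (p1.1 + p1.2) ≠ 0 := by
      rw [h1]
      exact mul_ne_zero (Finsupp.mem_support_iff.1 hp1.1) (Finsupp.mem_support_iff.1 hp1.2)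
    have h2' : (u * v).coeff (p2.1 + p2.2) ≠ 0 := by
      rw [h2]
      exact mul_ne_zero (Finsupp.mem_support_iff.1 hp2.1) (Finsupp.mem_support_iff.1 hp2.2)
    rw [huv, AddMonoidAlgebra.one_def, AddMonoidAlgebra.coeff_single, Finsupp.single_apply] at h1' h2'
    have e1 : (0 : ℤ × ℤ) = p1.1 + p1.2 := by
      by_contra h; rw [if_neg h] at h1'; exact h1' rfl
    have e2 : (0 : ℤ × ℤ) = p2.1 + p2.2 := by
      by_contra h; rw [if_neg h] at h2'; exact h2' rfl
    have := hu1 hp2.1 hp2.2 (by rw [← e1, ← e2])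
    exact hne (Prod.ext this.1.symm this.2.symm)
  have hu0 : u ≠ 0 := by rintro rfl; simp at huv
  have hv0 : v ≠ 0 := by rintro rfl; simp at huv
  have hcu : 0 < u.coeff.support.card := by
    rw [Finset.card_pos, Finsupp.support_nonempty_iff]
    exact fun h => hu0 (AddMonoidAlgebra.coeff_eq_zero.1 h)
  have hcv : 0 < v.coeff.support.card := by
    rw [Finset.card_pos, Finsupp.support_nonempty_iff]
    exact fun h => hv0 (AddMonoidAlgebra.coeff_eq_zero.1 h)
  have hcu1 : u.coeff.support.card ≤ 1 := by nlinarith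
  rw [Finset.card_le_one_iff_subset_singleton] at hcu1
  obtain ⟨g, hg⟩ := hcu1
  refine ⟨g, u.coeff g, ?_⟩
  apply AddMonoidAlgebra.coeff_injective
  rw [AddMonoidAlgebra.coeff_single]
  exact (Finsupp.support_subset_singleton.1 hg)

/-- If `1 + 2P` is a unit and `P` has augmentation `0` then `P = 0`. -/
lemma eq_zero_of_isUnit {P : R} (hP : aug P = 0) (hu : IsUnit (1 + 2 * P)) : P = 0 := by
  obtain ⟨g, n, hg⟩ := eq_single_of_isUnit hu
  have h1 : n = 1 := by
    have := congrArg aug hg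
    rw [aug_single] at this
    simpa [hP] using this.symm
  have h0 := congrArg (fun r : R => r.coeff 0) hg
  simp only [AddMonoidAlgebra.coeff_add, Finsupp.add_apply, AddMonoidAlgebra.one_def,
    AddMonoidAlgebra.coeff_single, Finsupp.single_eq_same] at h0
  have h2 : (2 * P : R).coeff 0 = 2 * P.coeff 0 := by
    have : (2 : R) * P = (2 : ℤ) • P := by
      rw [zsmul_eq_mul]; norm_num
    rw [this, AddMonoidAlgebra.coeff_smul_apply, smul_eq_mul]
  rw [h2, Finsupp.single_apply] at h0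
  have hg0 : g = 0 := by
    by_contra hne
    rw [if_neg hne] at h0
    omega
  have h3 : (2 : R) * P = 0 := by
    rw [hg0, h1] at hg
    have : (1 : R) = AddMonoidAlgebra.single 0 1 := rfl
    rw [← this] at hg
    linear_combination hg
  rcases mul_eq_zero.1 h3 with h | h
  · exfalso
    have h5 := congrArg aug h
    rw [show (2 : R) = 1 + 1 by norm_num, map_add, map_one, map_zero] at h5
    omega
  · exact h

instance : WfDvdMonoid R := by
  have : IsNoetherianRing R := Algebra.FiniteType.isNoetherianRing ℤ R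
  infer_instance

/-- An infinite chain of divisions by non-units is impossible. -/
lemma eq_zero_of_chain (r c : ℕ → R) (h : ∀ k, r k = c k * r (k + 1))
    (hc : ∀ k, ¬ IsUnit (c k)) : r 0 = 0 := by
  by_contra h0
  have hne : ∀ k, r k ≠ 0 := by
    intro k
    induction k with
    | zero => exact h0
    | succ k ih =>
      intro h1
      apply ih
      rw [h k, h1, mul_zero]
  have hwf : WellFounded (DvdNotUnit (α := R)) := wellFounded_dvdNotUnit
  rw [wellFounded_iff_isEmpty_descending_chain] at hwf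
  refine hwf.false ⟨r, fun k => ?_⟩
  exact ⟨hne (k+1), c k, hc k, by rw [h k, mul_comm]⟩

/-- The products `∏_{j ≤ i} (x^{n - j} - 1)`. -/
noncomputable def Q (n i : ℕ) : R := ∏ j ∈ Finset.range (i + 1), (mon ((n : ℤ) - j, 0) - 1)

/-- `P n i = 1 + 2 ∏_{j ≤ i} (x^{n - j} - 1)`. -/
noncomputable def P (n i : ℕ) : R := 1 + 2 * Q n i

lemma P_eq_one {n i : ℕ} (h : n ≤ i) : P n i = 1 := by
  have : Q n i = 0 := by
    apply Finset.prod_eq_zero (i := n) (Finset.mem_range.2 (by omega))
    simp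
  rw [P, this]; simp

lemma x_sub_one_dvd_mon (m : ℤ) : mon (1, 0) - 1 ∣ mon (m, 0) - 1 := by
  have h : ∀ k : ℕ, mon ((k : ℤ), 0) = mon (1, 0) ^ k := by
    intro k
    induction k with
    | zero => simp
    | succ k ih =>
      rw [pow_succ, ← ih, ← mon_add]
      congr 1
  rcases Int.eq_nat_or_neg m with ⟨k, rfl | rfl⟩
  · rw [h]; exact sub_one_dvd_pow_sub_one _ _
  · have h1 : mon (-(k : ℤ), 0) - 1 = - mon (-(k : ℤ), 0) * (mon ((k : ℤ), 0) - 1) := by
      have : mon (-(k : ℤ), 0) * mon ((k : ℤ), 0) = 1 := by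
        rw [← mon_add]; simp
      linear_combination this
    rw [h1, h]
    exact Dvd.dvd.mul_left (sub_one_dvd_pow_sub_one _ _) _

lemma x_sub_one_dvd_P (n i : ℕ) : mon (1, 0) - 1 ∣ P n i - 1 := by
  have : P n i - 1 = 2 * Q n i := by rw [P]; ring
  rw [this]
  apply Dvd.dvd.mul_left
  apply (x_sub_one_dvd_mon _).trans
  exact Finset.dvd_prod_of_mem _ (Finset.mem_range.2 (Nat.succ_pos i))

lemma aug_P (n i : ℕ) : aug (P n i) = 1 := by
  have : aug (Q n i) = 0 := by
    rw [Q, map_prod]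
    apply Finset.prod_eq_zero (i := 0) (Finset.mem_range.2 (Nat.succ_pos i))
    simp
  rw [P]; simp [this]

lemma P_ne_zero (n i : ℕ) : P n i ≠ 0 := by
  intro h
  have := aug_P n i
  rw [h] at this; simp at this

/-- `sig k n = ∏_{k ≤ i < n} P n i`. -/
noncomputable def sig (k n : ℕ) : R := ∏ i ∈ Finset.Ico k n, P n i

lemma sig_succ (k n : ℕ) : sig k n = P n k * sig (k + 1) n := by
  rcases lt_or_ge k n with h | h
  · rw [sig, sig, Finset.prod_eq_prod_Ico_succ_bot h]
  · rw [P_eq_one h, sig, sig, Finset.Ico_eq_empty (by omega), Finset.Ico_eq_empty (by omega)]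
    simp

lemma sig_ne_zero (k n : ℕ) : sig k n ≠ 0 := Finset.prod_ne_zero_iff.2 fun _ _ => P_ne_zero _ _

lemma sig_eq_one {k n : ℕ} (h : n ≤ k) : sig k n = 1 := by
  rw [sig, Finset.Ico_eq_empty (by omega)]; simp

lemma x_sub_one_dvd_sig (k n : ℕ) : mon (1, 0) - 1 ∣ sig k n - 1 := by
  rw [← Ideal.mem_span_singleton, ← Ideal.Quotient.eq, sig, map_prod, map_one]
  apply Finset.prod_eq_one
  intro i _
  rw [← map_one (Ideal.Quotient.mk _), Ideal.Quotient.eq, Ideal.mem_span_singleton]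
  exact x_sub_one_dvd_P n i

end Pool.Agent.Helper77Metab
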