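import Pool.Agent.Helper77_Metab.FreeMetab
import Pool.Agent.Helper77_Metab.Ring

set_option autoImplicit false

open scoped commutatorElement

namespace Pool.Agent.Helper77Metab

open Aff

/-- The group ring `ℤ[ℤ³]`. -/
abbrev S : Type := AddMonoidAlgebra ℤ (ℤ × ℤ × ℤ)

/-- `x ↦ x`, `y ↦ y`, `z ↦ x^{e (n+1)}` on exponents. -/
def ev (e : ℤˣ) (n : ℕ) : ℤ × ℤ × ℤ →+ ℤ × ℤ where
  toFun q := (q.1 + (e : ℤ) * (n + 1) * q.2.2, q.2.1)
  map_zero' := by simp
  map_add' := by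
    intro a b
    ext
    · simp only [Prod.fst_add, Prod.snd_add]; ring
    · simp

/-- `x ↦ x`, `y ↦ y`, `z ↦ x^{e (n+1)}` on group rings. -/
noncomputable def evR (e : ℤˣ) (n : ℕ) : S →+* R := AddMonoidAlgebra.mapDomainRingHom ℤ (ev e n)

/-- monomials of `S` -/
noncomputable def monS (q : ℤ × ℤ × ℤ) : S := AddMonoidAlgebra.single q 1

@[simp] lemma evR_monS (e : ℤˣ) (n : ℕ) (q : ℤ × ℤ × ℤ) : evR e n (monS q) = mon (ev e n q) := by
  simp [evR, monS, mon]

/-- A nonzero element of `S` has nonzero image under almost all specializations. -/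
lemma evR_ne_zero (e : ℤˣ) {s : S} (hs : s ≠ 0) : ∃ N, ∀ n, N ≤ n → evR e n s ≠ 0 := by
  -- a bound on the `x`-exponents
  obtain ⟨B, hB⟩ : ∃ B : ℕ, ∀ q ∈ s.coeff.support, q.1.natAbs ≤ B :=
    ⟨s.coeff.support.sup fun q => q.1.natAbs, fun q hq => Finset.le_sup (f := fun q : ℤ × ℤ × ℤ => q.1.natAbs) hq⟩
  refine ⟨2 * B, fun n hn h0 => ?_⟩
  have hinj : Set.InjOn (ev e n) (s.coeff.support : Set (ℤ × ℤ × ℤ)) := by
    intro q hq q' hq' h
    have h1 := congrArg Prod.fst h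
    have h2 := congrArg Prod.snd h
    simp only [ev, AddMonoidHom.coe_mk, ZeroHom.coe_mk] at h1 h2
    have b1 := hB q hq
    have b2 := hB q' hq'
    have h3 : q.2.2 = q'.2.2 := by
      by_contra hne
      have h4 : q.1 - q'.1 = (e : ℤ) * ((n + 1) * (q'.2.2 - q.2.2)) := by linear_combination h1
      have h5 : (q.1 - q'.1).natAbs = (n + 1) * (q'.2.2 - q.2.2).natAbs := by
        rw [h4, Int.natAbs_mul, Int.natAbs_mul]
        have : ((e : ℤ)).natAbs = 1 := by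
          rcases Int.units_eq_one_or e with rfl | rfl <;> simp
        rw [this, one_mul]
        congr 1
      have h6 : 0 < (q'.2.2 - q.2.2).natAbs := by omega
      have h7 : (q.1 - q'.1).natAbs ≤ 2 * B := by omega
      have h8 : (n + 1) * 1 ≤ (n + 1) * (q'.2.2 - q.2.2).natAbs := Nat.mul_le_mul_left _ h6
      omega
    rw [h3] at h1
    ext
    · linarith
    · exact h2
    · exact h3
  have h1 : Finsupp.mapDomain (ev e n) s.coeff = Finsupp.mapDomain (ev e n) 0 := by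
    rw [Finsupp.mapDomain_zero]
    exact congrArg AddMonoidAlgebra.coeff h0
  have h2 := Finsupp.mapDomain_injOn _ hinj (by simp) (by simp) h1
  exact hs (AddMonoidAlgebra.coeff_eq_zero.1 h2)

/-- the `K_j` as an element of `ℤ³`: `z^e x^{-(j+1)}` -/
def kap (e : ℤˣ) (j : ℕ) : ℤ × ℤ × ℤ := (-((j : ℤ) + 1), 0, (e : ℤ))

lemma ev_kap (e : ℤˣ) (n j : ℕ) : ev e n (kap e j) = ((n : ℤ) - j, 0) := by
  have : (e : ℤ) * (e : ℤ) = 1 := by
    rcases Int.units_eq_one_or e with rfl | rfl <;> simp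
  ext
  · simp only [ev, kap, AddMonoidHom.coe_mk, ZeroHom.coe_mk]
    linear_combination ((n : ℤ) + 1) * this
  · simp [ev, kap]

/-- `s_i = 1 + 2 ∏_{j ≤ i} (k_j - 1)` in `S` -/
noncomputable def sS (e : ℤˣ) (i : ℕ) : S :=
  1 + 2 * ∏ j ∈ Finset.range (i + 1), (monS (kap e j) - 1)

lemma evR_sS (e : ℤˣ) (n i : ℕ) : evR e n (sS e i) = P n i := by
  rw [sS, P, Q, map_add, map_one, map_mul, map_prod, map_ofNat]
  congr 2
  apply Finset.prod_congr rfl
  intro j _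
  rw [map_sub, map_one, evR_monS, ev_kap]

/-- `D_k = s_0 ⋯ s_{k-1}` -/
noncomputable def DS (e : ℤˣ) (k : ℕ) : S := ∏ i ∈ Finset.range k, sS e i

lemma evR_DS_ne_zero (e : ℤˣ) (n k : ℕ) : evR e n (DS e k) ≠ 0 := by
  rw [DS, map_prod]
  exact Finset.prod_ne_zero_iff.2 fun i _ => by rw [evR_sS]; exact P_ne_zero _ _

lemma evR_DS_mul_sig (e : ℤˣ) (n k : ℕ) : evR e n (DS e k) * sig k n = sig 0 n := by
  induction k with
  | zero => simp [DS]
  | succ k ih =>
    rw [← ih, sig_succ k n, DS, Finset.prod_range_succ, map_mul, evR_sS, ← DS]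
    ring

/-- The counterexample group, as a subgroup of `ℤ³ × ∏_{±} ∏_ℕ Aff`. -/
noncomputable def T : Subgroup (Multiplicative (ℤ × ℤ × ℤ) × (ℤˣ → ℕ → Aff)) where
  carrier := {p | (∀ e n, p.2 e n ∈ M) ∧ (∀ e n, (p.2 e n).g = ev e n p.1.toAdd) ∧
    ∀ e, ∃ r s : S, ∀ n, evR e n s ≠ 0 ∧ evR e n s * (p.2 e n).r = evR e n r * sig 0 n}
  one_mem' := by
    refine ⟨fun _ _ => one_mem _, fun e n => ?_, fun e => ⟨0, 1, fun n => ?_⟩⟩
    · exact (map_zero (ev e n)).symm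
    · simp
  mul_mem' := by
    rintro a b ⟨ha1, ha2, ha3⟩ ⟨hb1, hb2, hb3⟩
    refine ⟨fun e n => mul_mem (ha1 e n) (hb1 e n), fun e n => ?_, fun e => ?_⟩
    · change (a.2 e n * b.2 e n).g = _
      rw [mul_g, ha2, hb2, Prod.fst_mul, toAdd_mul, map_add]
    · obtain ⟨r, s, h⟩ := ha3 e
      obtain ⟨r', s', h'⟩ := hb3 e
      refine ⟨r * s' + monS a.1.toAdd * r' * s, s * s', fun n => ⟨?_, ?_⟩⟩
      · rw [map_mul]; exact mul_ne_zero (h n).1 (h' n).1
      · change _ * (a.2 e n * b.2 e n).r = _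
        rw [mul_r, ha2, map_add, map_mul, map_mul, map_mul, map_mul, evR_monS]
        linear_combination (evR e n s') * (h n).2 +
          (mon (ev e n a.1.toAdd) * evR e n s) * (h' n).2
  inv_mem' := by
    rintro a ⟨ha1, ha2, ha3⟩
    refine ⟨fun e n => inv_mem (ha1 e n), fun e n => ?_, fun e => ?_⟩
    · change ((a.2 e n)⁻¹).g = _
      rw [inv_g, ha2, Prod.fst_inv, toAdd_inv, map_neg]
    · obtain ⟨r, s, h⟩ := ha3 e
      refine ⟨-(monS (-a.1.toAdd) * r), s, fun n => ⟨(h n).1, ?_⟩⟩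
      change _ * ((a.2 e n)⁻¹).r = _
      rw [inv_r, ha2, map_neg, map_mul, evR_monS, map_neg]
      linear_combination (-mon (-(ev e n) a.1.toAdd)) * (h n).2

end Pool.Agent.Helper77Metab
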