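import Pool.Agent.Helper77_Metab.Basic

set_option autoImplicit false

open scoped commutatorElement

namespace Pool.Agent.Helper77Metab

open Aff

section general

variable {G : Type*} [Group G] (x y : G)

/-- conjugates of the basic commutator -/
def C (q : ℤ × ℤ) : G := x ^ q.1 * y ^ q.2 * ⁅x, y⁆ * (x ^ q.1 * y ^ q.2)⁻¹

lemma C_mem (q : ℤ × ℤ) : C x y q ∈ commutator G := by
  have h : ⁅x, y⁆ ∈ commutator G := Subgroup.commutator_mem_commutator trivial trivial
  exact (inferInstance : (commutator G).Normal).conj_mem _ h _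

lemma conj_x_C (q : ℤ × ℤ) : x * C x y q * x⁻¹ = C x y (q + (1, 0)) := by
  have : x ^ (q.1 + 1) = x * x ^ q.1 := by rw [add_comm, zpow_add, zpow_one]
  simp only [C, Prod.fst_add, Prod.snd_add, add_zero, this]
  group

lemma conj_xinv_C (q : ℤ × ℤ) : x⁻¹ * C x y q * x = C x y (q + (-1, 0)) := by
  have h := conj_x_C x y (q + (-1, 0))
  have h2 : q + (-1, 0) + (1, 0) = q := by ext <;> simp
  rw [h2] at h
  rw [← h]; group

variable (hcomm : ∀ a ∈ commutator G, ∀ b ∈ commutator G, a * b = b * a)

include hcomm in
lemma conj_y_C (q : ℤ × ℤ) : y * C x y q * y⁻¹ = C x y (q + (0, 1)) := by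
  have h1 : y ^ (q.2 + 1) = y * y ^ q.2 := by rw [add_comm, zpow_add, zpow_one]
  have h2 : y * C x y q * y⁻¹ = ⁅y, x ^ q.1⁆ * C x y (q + (0, 1)) * ⁅y, x ^ q.1⁆⁻¹ := by
    simp only [C, Prod.fst_add, Prod.snd_add, add_zero, h1, commutatorElement_def]
    group
  rw [h2, hcomm _ (Subgroup.commutator_mem_commutator trivial trivial) _ (C_mem x y _)]
  group

include hcomm in
lemma conj_yinv_C (q : ℤ × ℤ) : y⁻¹ * C x y q * y = C x y (q + (0, -1)) := by
  have h := conj_y_C x y hcomm (q + (0, -1))
  have h2 : q + (0, -1) + (0, 1) = q := by ext <;> simp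
  rw [h2] at h
  rw [← h]; group

/-- A set mapped into `K = closure S` by conjugation. -/
lemma conj_closure {S : Set G} (g : G) (h : ∀ s ∈ S, g * s * g⁻¹ ∈ Subgroup.closure S) :
    ∀ n ∈ Subgroup.closure S, g * n * g⁻¹ ∈ Subgroup.closure S := by
  intro n hn
  induction hn using Subgroup.closure_induction with
  | mem s hs => exact h s hs
  | one => simp
  | mul a b _ _ ha hb =>
    have : g * (a * b) * g⁻¹ = (g * a * g⁻¹) * (g * b * g⁻¹) := by group
    rw [this]; exact mul_mem ha hb
  | inv a _ ha =>
    have : g * a⁻¹ * g⁻¹ = (g * a * g⁻¹)⁻¹ := by group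
    rw [this]; exact inv_mem ha

variable (hgen : Subgroup.closure {x, y} = (⊤ : Subgroup G))

include hcomm hgen in
lemma closure_C_normal : (Subgroup.closure (Set.range (C x y))).Normal := by
  set K := Subgroup.closure (Set.range (C x y)) with hK
  have hmem : ∀ q, C x y q ∈ K := fun q => Subgroup.subset_closure ⟨q, rfl⟩
  have key : ∀ g : G, (∀ n ∈ K, g * n * g⁻¹ ∈ K) ∧ (∀ n ∈ K, g⁻¹ * n * g⁻¹⁻¹ ∈ K) := by
    intro g
    have hg : g ∈ Subgroup.closure {x, y} := by rw [hgen]; trivial
    induction hg using Subgroup.closure_induction with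
    | mem s hs =>
      simp only [Set.mem_insert_iff, Set.mem_singleton_iff] at hs
      rcases hs with rfl | rfl
      · constructor
        · apply conj_closure
          rintro _ ⟨q, rfl⟩
          rw [conj_x_C]; exact hmem _
        · apply conj_closure
          rintro _ ⟨q, rfl⟩
          rw [inv_inv, conj_xinv_C]; exact hmem _
      · constructor
        · apply conj_closure
          rintro _ ⟨q, rfl⟩
          rw [conj_y_C x s hcomm]; exact hmem _
        · apply conj_closure
          rintro _ ⟨q, rfl⟩
          rw [inv_inv, conj_yinv_C x s hcomm]; exact hmem _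
    | one => simp
    | mul a b _ _ ha hb =>
      constructor
      · intro n hn
        have : a * b * n * (a * b)⁻¹ = a * (b * n * b⁻¹) * a⁻¹ := by group
        rw [this]; exact ha.1 _ (hb.1 _ hn)
      · intro n hn
        have : (a * b)⁻¹ * n * (a * b)⁻¹⁻¹ = b⁻¹ * (a⁻¹ * n * a⁻¹⁻¹) * b⁻¹⁻¹ := by group
        rw [this]; exact hb.2 _ (ha.2 _ hn)
    | inv a _ ha =>
      refine ⟨ha.2, ?_⟩
      rw [inv_inv]; exact ha.1
  exact ⟨fun n hn g => (key g).1 n hn⟩

include hcomm hgen in
lemma commutator_le_closure_C : commutator G ≤ Subgroup.closure (Set.range (C x y)) := by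
  have := closure_C_normal x y hcomm hgen
  set K := Subgroup.closure (Set.range (C x y)) with hK
  have hxy : ⁅x, y⁆ ∈ K := by
    apply Subgroup.subset_closure
    exact ⟨0, by simp [C]⟩
  -- the quotient is abelian
  let π := QuotientGroup.mk' K
  have hπ : π x * π y = π y * π x := by
    rw [← commutatorElement_eq_one_iff_mul_comm, ← map_commutatorElement]
    exact (QuotientGroup.eq_one_iff _).2 hxy
  have h1 : ∀ g : G, π x * π g = π g * π x := by
    intro g
    have hg : g ∈ Subgroup.closure {x, y} := by rw [hgen]; trivial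
    induction hg using Subgroup.closure_induction with
    | mem s hs =>
      simp only [Set.mem_insert_iff, Set.mem_singleton_iff] at hs
      rcases hs with rfl | rfl
      · rfl
      · exact hπ
    | one => simp
    | mul a b _ _ ha hb => rw [map_mul, ← mul_assoc, ha, mul_assoc, hb, mul_assoc]
    | inv a _ ha =>
      rw [map_inv]
      exact (Commute.inv_right (show Commute (π x) (π a) from ha))
  have h2 : ∀ g : G, π y * π g = π g * π y := by
    intro g
    have hg : g ∈ Subgroup.closure {x, y} := by rw [hgen]; trivial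
    induction hg using Subgroup.closure_induction with
    | mem s hs =>
      simp only [Set.mem_insert_iff, Set.mem_singleton_iff] at hs
      rcases hs with rfl | rfl
      · exact hπ.symm
      · rfl
    | one => simp
    | mul a b _ _ ha hb => rw [map_mul, ← mul_assoc, ha, mul_assoc, hb, mul_assoc]
    | inv a _ ha =>
      rw [map_inv]
      exact (Commute.inv_right (show Commute (π y) (π a) from ha))
  have h3 : ∀ h g : G, π g * π h = π h * π g := by
    intro h g
    have hg : g ∈ Subgroup.closure {x, y} := by rw [hgen]; trivial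
    induction hg using Subgroup.closure_induction with
    | mem s hs =>
      simp only [Set.mem_insert_iff, Set.mem_singleton_iff] at hs
      rcases hs with rfl | rfl
      · exact h1 h
      · exact h2 h
    | one => simp
    | mul a b _ _ ha hb => rw [map_mul, mul_assoc, hb, ← mul_assoc, ha, mul_assoc]
    | inv a _ ha =>
      rw [map_inv]
      exact (Commute.inv_left (show Commute (π a) (π h) from ha))
  rw [commutator_def, Subgroup.commutator_le]
  intro a _ b _
  rw [← QuotientGroup.eq_one_iff]
  change π ⁅a, b⁆ = 1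
  rw [map_commutatorElement, commutatorElement_eq_one_iff_mul_comm]
  exact h3 b a

include hgen in
lemma exists_normal_form (g : G) : ∃ i j : ℤ, g * (x ^ i * y ^ j)⁻¹ ∈ commutator G := by
  have key : ∃ i j : ℤ, Abelianization.of g = Abelianization.of x ^ i * Abelianization.of y ^ j := by
    have hg : g ∈ Subgroup.closure {x, y} := by rw [hgen]; trivial
    induction hg using Subgroup.closure_induction with
    | mem s hs =>
      simp only [Set.mem_insert_iff, Set.mem_singleton_iff] at hs
      rcases hs with rfl | rfl
      · exact ⟨1, 0, by simp⟩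
      · exact ⟨0, 1, by simp⟩
    | one => exact ⟨0, 0, by simp⟩
    | mul a b _ _ ha hb =>
      obtain ⟨i, j, h1⟩ := ha
      obtain ⟨i', j', h2⟩ := hb
      refine ⟨i + i', j + j', ?_⟩
      rw [map_mul, h1, h2, zpow_add, zpow_add]
      simp only [mul_assoc, mul_left_comm]
    | inv a _ ha =>
      obtain ⟨i, j, h1⟩ := ha
      refine ⟨-i, -j, ?_⟩
      rw [map_inv, h1, mul_inv, zpow_neg, zpow_neg]
  obtain ⟨i, j, h⟩ := key
  refine ⟨i, j, ?_⟩
  rw [← Abelianization.ker_of, MonoidHom.mem_ker]
  rw [map_mul, map_inv, map_mul, map_zpow, map_zpow, h]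
  simp

/-- Faithfulness of the Magnus representation: a metabelian group generated by `x, y`
which maps to the standard generators of the affine group embeds in it. -/
theorem injective_of_magnus (φ : G →* Aff) (hx : φ x = X0) (hy : φ y = Y0)
    (hcomm : ∀ a ∈ commutator G, ∀ b ∈ commutator G, a * b = b * a)
    (hgen : Subgroup.closure {x, y} = (⊤ : Subgroup G)) : Function.Injective φ := by
  rw [injective_iff_map_eq_one]
  intro g hg
  -- first, `g` lies in the commutator subgroup
  have hg' : g ∈ commutator G := by
    obtain ⟨i, j, hk⟩ := exists_normal_form x y hgen g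
    have h1 : (φ (g * (x ^ i * y ^ j)⁻¹)).g = 0 := by
      have h2 : (commutator G) ≤ (lin.comp φ).ker := Abelianization.commutator_subset_ker _
      have h3 := h2 hk
      rw [MonoidHom.mem_ker] at h3
      exact congrArg Multiplicative.toAdd h3
    rw [map_mul, hg, one_mul, map_inv, inv_g, map_mul, map_zpow, map_zpow, hx, hy, mul_g,
      zpow_g, zpow_g] at h1
    simp only [X0, Y0, neg_eq_zero] at h1
    have h4 : i = 0 := by simpa using congrArg Prod.fst h1
    have h5 : j = 0 := by simpa using congrArg Prod.snd h1
    subst h4 h5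
    simpa using hk
  have hcomm' : IsMulCommutative (commutator G) :=
    IsMulCommutative.of_setLike_mul_comm fun a ha b hb => hcomm a ha b hb
  let _ : CommGroup (commutator G) :=
    { (inferInstance : Group (commutator G)) with
      mul_comm := fun a b => Subtype.ext (hcomm a a.2 b b.2) }
  let c : ℤ × ℤ → Additive (commutator G) := fun q => Additive.ofMul ⟨C x y q, C_mem x y q⟩
  let ψ : R →+ Additive (commutator G) :=
    (Finsupp.liftAddHom (fun q => zmultiplesHom _ (c q))).comp
      (AddMonoidAlgebra.coeffAddEquiv (R := ℤ) (M := ℤ × ℤ)).toAddMonoidHom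
  have hψ1 : ∀ q, ψ (AddMonoidAlgebra.single q 1) = c q := by
    intro q
    simp [ψ]
  -- linear part of commutators vanishes
  have hlin : ∀ a ∈ commutator G, (φ a).g = 0 := by
    intro a ha
    have h2 : (commutator G) ≤ (lin.comp φ).ker := Abelianization.commutator_subset_ker _
    have h3 := h2 ha
    rw [MonoidHom.mem_ker] at h3
    exact congrArg Multiplicative.toAdd h3
  let θ : Additive (commutator G) →+ R :=
    { toFun := fun a => (φ (a.toMul : G)).r
      map_zero' := by
        change (φ ((1 : commutator G) : G)).r = 0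
        simp
      map_add' := by
        intro a b
        change (φ (((a.toMul * b.toMul : commutator G)) : G)).r = _
        rw [Subgroup.coe_mul, map_mul, mul_r, hlin _ a.toMul.2]
        simp }
  have hθC : ∀ q, θ (c q) = mon q * (mon (1, 0) - 1) := by
    intro q
    change (φ (C x y q)).r = _
    rw [C, map_mul, map_mul, map_inv, conj_r]
    · rw [map_commutatorElement, hx, hy, comm_X0_Y0, map_mul, map_zpow, map_zpow, hx, hy, mul_g,
        zpow_g, zpow_g]
      congr 2
      ext <;> simp [X0, Y0]
    · rw [map_commutatorElement, hx, hy, comm_X0_Y0]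
  have hθψ : ∀ r, θ (ψ r) = r * (mon (1, 0) - 1) := by
    intro r
    have : θ.comp ψ = AddMonoidHom.mulRight (mon (1, 0) - 1) := by
      apply AddMonoidAlgebra.addHom_ext'
      intro q
      ext
      simp only [AddMonoidHom.comp_apply, AddMonoidAlgebra.singleAddHom_apply]
      rw [hψ1, hθC]
      rfl
    exact DFunLike.congr_fun this r
  -- every element of the commutator subgroup is in the range of `ψ`
  have hrange : ∀ a (ha : a ∈ commutator G), ∃ r, ψ r = Additive.ofMul ⟨a, ha⟩ := by
    have hle : commutator G ≤ (AddSubgroup.toSubgroup' ψ.range).map (commutator G).subtype := by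
      refine (commutator_le_closure_C x y hcomm hgen).trans ?_
      rw [Subgroup.closure_le]
      rintro _ ⟨q, rfl⟩
      exact ⟨⟨C x y q, C_mem x y q⟩, ⟨_, hψ1 q⟩, rfl⟩
    intro a ha
    obtain ⟨b, ⟨r, hr⟩, hb⟩ := hle ha
    refine ⟨r, ?_⟩
    rw [hr]
    have : b = ⟨a, ha⟩ := Subtype.ext hb
    rw [this]
    rfl
  obtain ⟨r, hr⟩ := hrange g hg'
  have h1 := hθψ r
  rw [hr] at h1
  have h2 : (0 : R) = r * (mon (1, 0) - 1) := by
    rw [← h1]
    change 0 = (φ g).r
    rw [hg]; rfl
  have h3 : r = 0 := by
    rcases mul_eq_zero.1 h2.symm with h | h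
    · exact h
    · exact absurd h (mon_sub_one_ne_zero (by simp))
  rw [h3, map_zero] at hr
  have h4 : (1 : commutator G) = ⟨g, hg'⟩ := hr
  exact (congrArg Subtype.val h4).symm

end general

end Pool.Agent.Helper77Metab
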