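import Pool.Agent.Helper77_Metab.Elements

set_option autoImplicit false

open scoped commutatorElement

namespace Pool.Agent.Helper77Metab

open Aff

/-! ### T is metabelian -/

lemma expo_commutator {a : T} (ha : a ∈ commutator T) : expo a = 1 := by
  have h2 : (commutator T) ≤ expo.ker := Abelianization.commutator_subset_ker _
  exact h2 ha

lemma pr_g_of_expo {a : T} (ha : expo a = 1) (e : ℤˣ) (n : ℕ) : (pr e n a).g = 0 := by
  rw [pr_g, ha]; exact map_zero _

lemma comm_of_expo {a b : T} (ha : expo a = 1) (hb : expo b = 1) : a * b = b * a := by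
  apply ext_T
  · rw [map_mul, map_mul, mul_comm]
  · intro e n
    rw [map_mul, map_mul]
    exact comm_trans _ _ (pr_g_of_expo ha e n) (pr_g_of_expo hb e n)

lemma T_metabelian : derivedSeries T 2 = ⊥ :=
  derivedSeries_two_eq_bot_of fun _ ha _ hb => comm_of_expo (expo_commutator ha) (expo_commutator hb)

/-! ### T is commutative transitive -/

/-- If `t` commutes with a nontrivial element of the kernel of `expo` then it is in the kernel. -/
lemma expo_of_comm {a t : T} (ha : expo a = 1) (ha1 : a ≠ 1) (h : t * a = a * t) : expo t = 1 := by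
  by_contra hne
  -- some coordinate of `a` is nontrivial
  obtain ⟨e, n0, hen⟩ : ∃ e n, pr e n a ≠ 1 := by
    by_contra hcon
    push Not at hcon
    exact ha1 (ext_T (by rw [ha, map_one]) fun e n => by rw [hcon, map_one])
  obtain ⟨r, s, hrs⟩ := a.2.2.2 e
  have hr : r ≠ 0 := by
    rintro rfl
    have h1 := (hrs n0).2
    rw [map_zero, zero_mul] at h1
    rcases mul_eq_zero.1 h1 with h2 | h2
    · exact (hrs n0).1 h2
    · exact hen (Aff.ext (pr_g_of_expo ha e n0) h2)
  have hq : (expo t).toAdd ≠ 0 := hne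
  have hmon : monS (expo t).toAdd - 1 ≠ 0 := by
    rw [sub_ne_zero]
    intro h1
    exact hq (AddMonoidAlgebra.single_left_injective (R := ℤ) one_ne_zero h1)
  obtain ⟨N1, hN1⟩ := evR_ne_zero e hr
  obtain ⟨N2, hN2⟩ := evR_ne_zero e hmon
  have e1 := hN1 (max N1 N2) (le_max_left _ _)
  have e2 := hN2 (max N1 N2) (le_max_right _ _)
  set n := max N1 N2
  have h3 : (pr e n a).r ≠ 0 := by
    intro h0
    have h1 := (hrs n).2
    change _ * (pr e n a).r = _ at h1
    rw [h0, mul_zero] at h1
    rcases mul_eq_zero.1 h1.symm with h2 | h2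
    · exact e1 h2
    · exact sig_ne_zero _ _ h2
  have h4 : pr e n t * pr e n a = pr e n a * pr e n t := by rw [← map_mul, ← map_mul, h]
  have h5 := g_eq_zero_of_comm _ _ (pr_g_of_expo ha e n) h3 h4
  rw [pr_g] at h5
  apply e2
  rw [map_sub, map_one, evR_monS, h5, mon_zero, sub_self]

lemma T_ct (t : T) (ht : t ≠ 1) (g h : T) (hg : g * t = t * g) (hh : h * t = t * h) :
    g * h = h * g := by
  by_cases h1 : expo t = 1
  · exact comm_of_expo (expo_of_comm h1 ht hg) (expo_of_comm h1 ht hh)
  · -- the commutator of `g` and `h` commutes with `t` and is in the kernel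
    by_contra hne
    have h2 : ⁅g, h⁆ ≠ 1 := by rwa [Ne, commutatorElement_eq_one_iff_mul_comm]
    have h3 : expo ⁅g, h⁆ = 1 := by
      rw [map_commutatorElement, commutatorElement_eq_one_iff_mul_comm, mul_comm]
    have cg : Commute t g := hg.symm
    have ch : Commute t h := hh.symm
    have h4 : Commute t ⁅g, h⁆ := by
      rw [commutatorElement_def]
      exact ((cg.mul_right ch).mul_right cg.inv_right).mul_right ch.inv_right
    exact h1 (expo_of_comm h3 h2 h4)

/-! ### the separating family -/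

lemma fT_surjective (e : ℤˣ) (n : ℕ) : Function.Surjective (fT e n) := by
  have h1 : Function.Surjective ((pr e n).codRestrict M (pr_mem e n)) := by
    have hX : (⟨X0, X0_mem⟩ : M) = (pr e n).codRestrict M (pr_mem e n) tX := rfl
    have hY : (⟨Y0, Y0_mem⟩ : M) = (pr e n).codRestrict M (pr_mem e n) (tY n) := by
      apply Subtype.ext
      change Y0 = ⟨(0, 1), sig n n⟩
      rw [sig_eq_one le_rfl]; rfl
    have h2 : M ≤ (pr e n).range := by
      rw [M_eq_closure, Subgroup.closure_le]
      rintro a ha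
      simp only [Set.mem_insert_iff, Set.mem_singleton_iff] at ha
      rcases ha with rfl | rfl
      · exact ⟨tX, rfl⟩
      · exact ⟨tY n, (congrArg Subtype.val hY).symm⟩
    rintro ⟨m, hm⟩
    obtain ⟨t, ht⟩ := h2 hm
    exact ⟨t, Subtype.ext ht⟩
  exact eM.symm.surjective.comp h1

lemma fT_separating (t : T) (ht : t ≠ 1) : ∃ e n, fT e n t ≠ 1 := by
  by_contra hcon
  push Not at hcon
  apply ht
  have h1 : ∀ e n, pr e n t = 1 := fun e n => (fT_eq_one_iff e n t).1 (hcon e n)
  apply ext_T
  · by_contra hne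
    have hq : (expo t).toAdd ≠ 0 := hne
    have hmon : monS (expo t).toAdd - 1 ≠ 0 := by
      rw [sub_ne_zero]
      intro h1
      exact hq (AddMonoidAlgebra.single_left_injective (R := ℤ) one_ne_zero h1)
    obtain ⟨N, hN⟩ := evR_ne_zero 1 hmon
    have h2 := hN N le_rfl
    apply h2
    have h3 := pr_g 1 N t
    rw [h1] at h3
    rw [map_sub, map_one, evR_monS, ← h3, one_g, mon_zero, sub_self]
  · intro e n; rw [h1, map_one]

/-! ### no discriminating family -/

/-- Any surjection maps the kernel of `expo` to translations. -/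
lemma F_g_eq_zero (f : T →* FM) (hf : Function.Surjective f) {a : T} (ha : expo a = 1) :
    (mag (f a)).g = 0 := by
  -- a nontrivial translation in the image
  obtain ⟨c, hc⟩ : ∃ c : T, mag (f c) = ⟨0, mon (1, 0) - 1⟩ := by
    have h := trans_mem 1
    rw [one_mul] at h
    obtain ⟨c', hc'⟩ := h
    obtain ⟨c, rfl⟩ := hf c'
    exact ⟨c, hc'⟩
  by_contra hne
  -- the commutator of `a` and `c`
  have h1 : expo ⁅a, c⁆ = 1 := by
    rw [map_commutatorElement, commutatorElement_eq_one_iff_mul_comm, mul_comm]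
  have h2 : a * ⁅a, c⁆ = ⁅a, c⁆ * a := comm_of_expo ha h1
  have h3 := congrArg (fun t => mag (f t)) h2
  simp only [map_mul, map_commutatorElement] at h3
  have h4 : ⁅mag (f a), mag (f c)⁆ = ⟨0, (mon (mag (f a)).g - 1) * (mon (1, 0) - 1)⟩ := by
    rw [commutatorElement_def, hc, conj_r _ _ rfl]
    ext1
    · simp
    · simp only [mul_r, inv_r, mon_zero, neg_zero]
      ring
  apply hne
  apply g_eq_zero_of_comm _ _ _ _ h3
  · rw [h4]
  · rw [h4]
    exact mul_ne_zero (mon_sub_one_ne_zero hne) (mon_sub_one_ne_zero (by simp))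

/-- The key property of the chains. -/
lemma chain_key (f : T →* FM) (hf : Function.Surjective f) (e : ℤˣ) (h : f (tA e 0) ≠ 1) :
    ∃ j : ℕ, (mag (f (tK e j))).g = 0 := by
  by_contra hcon
  push Not at hcon
  let F : T →* Aff := mag.comp f
  have hA : ∀ k, (F (tA e k)).g = 0 := fun k => F_g_eq_zero f hf rfl
  let u : ℕ → ℤ × ℤ := fun j => (F (tK e j)).g
  have hrec : ∀ k, (F (tA e k)).r =
      (1 + 2 * ∏ j ∈ Finset.range (k + 1), (mon (u j) - 1)) * (F (tA e (k + 1))).r := by
    intro k
    conv_lhs => rw [tA_eq e k]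
    rw [map_mul, map_pow, map_Phi _ _ _ (hA (k + 1)), pow_two]
    simp only [mul_r, hA (k + 1), mon_zero, one_mul]
    ring
  have h0 : (F (tA e 0)).r = 0 := by
    apply eq_zero_of_chain (fun k => (F (tA e k)).r) _ hrec
    intro k hu
    have haug : aug (∏ j ∈ Finset.range (k + 1), (mon (u j) - 1)) = 0 := by
      rw [map_prod]
      apply Finset.prod_eq_zero (i := 0) (Finset.mem_range.2 (Nat.succ_pos k))
      simp
    have hz := eq_zero_of_isUnit haug hu
    rw [Finset.prod_eq_zero_iff] at hz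
    obtain ⟨j, _, hj⟩ := hz
    exact mon_sub_one_ne_zero (hcon j) hj
  apply h
  apply mag_injective
  rw [map_one]
  exact Aff.ext (hA 0) h0

/-- No surjection onto the free metabelian group is nontrivial on both `a_+` and `a_-`. -/
theorem not_both (f : T →* FM) (hf : Function.Surjective f) (h1 : f (tA 1 0) ≠ 1)
    (h2 : f (tA (-1) 0) ≠ 1) : False := by
  obtain ⟨j, hj⟩ := chain_key f hf 1 h1
  obtain ⟨l, hl⟩ := chain_key f hf (-1) h2
  let F : T →* Aff := mag.comp f
  have hj' : (1 : ℤ) • (F tZ).g + (-((j : ℤ) + 1)) • (F tX).g = 0 := by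
    have : (F (tK 1 j)).g = 0 := hj
    rw [tK, map_mul, map_zpow, map_zpow, mul_g, zpow_g, zpow_g] at this
    exact this
  have hl' : (-1 : ℤ) • (F tZ).g + (-((l : ℤ) + 1)) • (F tX).g = 0 := by
    have : (F (tK (-1) l)).g = 0 := hl
    rw [tK, map_mul, map_zpow, map_zpow, mul_g, zpow_g, zpow_g] at this
    exact this
  have hX : (F tX).g = 0 := by
    have h3 : (((j : ℤ) + 1) + ((l : ℤ) + 1)) • (F tX).g = 0 := by
      have h4 := congrArg₂ (· + ·) hj' hl'
      simp only [neg_smul, one_smul, add_zero] at h4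
      rw [add_smul]
      have h5 : (F tZ).g + -(((j : ℤ) + 1) • (F tX).g) + (-(F tZ).g + -(((l : ℤ) + 1) • (F tX).g)) =
        -(((j : ℤ) + 1) • (F tX).g + ((l : ℤ) + 1) • (F tX).g) := by abel
      rw [h5, neg_eq_zero] at h4
      exact h4
    rcases smul_eq_zero.1 h3 with h | h
    · omega
    · exact h
  have hZ : (F tZ).g = 0 := by
    rw [hX] at hj'
    simpa using hj'
  -- all linear parts are multiples of that of `Y`
  have hall : ∀ t : T, ∃ m : ℤ, (F t).g = m • (F (tY 0)).g := by
    intro t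
    rcases hq : (expo t).toAdd with ⟨i, j, k⟩
    refine ⟨j, ?_⟩
    have hexp : expo (t * (tX ^ i * tY 0 ^ j * tZ ^ k)⁻¹) = 1 := by
      rw [map_mul, map_inv, map_mul, map_mul, map_zpow, map_zpow, map_zpow]
      have h5 : expo t = expo tX ^ i * expo (tY 0) ^ j * expo tZ ^ k := by
        have : (expo t).toAdd = i • ((1, 0, 0) : ℤ × ℤ × ℤ) + j • ((0, 1, 0) : ℤ × ℤ × ℤ)
            + k • ((0, 0, 1) : ℤ × ℤ × ℤ) := by
          rw [hq]; simp
        exact this
      rw [← h5, mul_inv_cancel]
    have h6 := F_g_eq_zero f hf hexp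
    have h7 : (F (t * (tX ^ i * tY 0 ^ j * tZ ^ k)⁻¹)).g = 0 := h6
    rw [map_mul, map_inv, map_mul, map_mul, map_zpow, map_zpow, map_zpow, mul_g, inv_g, mul_g,
      mul_g, zpow_g, zpow_g, zpow_g, hX, hZ, smul_zero, smul_zero, zero_add, add_zero] at h7
    exact add_neg_eq_zero.1 h7
  obtain ⟨a, ha⟩ := hf fx
  obtain ⟨b, hb⟩ := hf fy
  obtain ⟨m, hm⟩ := hall a
  obtain ⟨m', hm'⟩ := hall b
  have ha' : (F a).g = (1, 0) := by
    change (mag (f a)).g = _
    rw [ha, mag_fx]; rfl
  have hb' : (F b).g = (0, 1) := by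
    change (mag (f b)).g = _
    rw [hb, mag_fy]; rfl
  rw [ha'] at hm
  rw [hb'] at hm'
  rcases hv : (F (tY 0)).g with ⟨v1, v2⟩
  rw [hv] at hm hm'
  have p1 := congrArg Prod.fst hm
  have p2 := congrArg Prod.snd hm
  have p3 := congrArg Prod.fst hm'
  have p4 := congrArg Prod.snd hm'
  simp only [Prod.smul_fst, Prod.smul_snd, smul_eq_mul] at p1 p2 p3 p4
  have hv2 : v2 = 0 := by
    rcases mul_eq_zero.1 p2.symm with h | h
    · rw [h] at p1; simp at p1
    · exact h
  rw [hv2] at p4
  simp at p4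

end Pool.Agent.Helper77Metab
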